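import Pool.Agent.H41.CL.Defs2

set_option autoImplicit false

/-! The simple fixed point free involutions with a given cubic graph. -/

namespace Pool.Agent.H155.CL

open Finset Pool.Agent.H41.CL

/-- the conditions on the involutions -/
def IsInv {k : ℕ} (G : SimpleGraph (Fin (2 * k))) (σ : P k → P k) : Prop :=
  (∀ p, σ (σ p) = p) ∧ (∀ p, σ p ≠ p) ∧
      (∀ p p' : P k, p ≠ p' → p.1 = p'.1 → (σ p).1 ≠ (σ p').1) ∧
      ∀ u v, G.Adj u v ↔ ∃ p : P k, p.1 = u ∧ (σ p).1 = v

variable {k : ℕ} {G : SimpleGraph (Fin (2 * k))}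

/-- the family of bijections of an involution -/
noncomputable def toFam {σ : P k → P k} (h : IsInv G σ) (v : Fin (2 * k)) :
    Fin 3 ≃ G.neighborSet v :=
  Equiv.ofBijective (fun i => ⟨(σ (v, i)).1, (h.2.2.2 v _).2 ⟨(v, i), rfl, rfl⟩⟩) (by
    constructor
    · intro i j hij
      by_contra hne
      refine h.2.2.1 (v, i) (v, j) ?_ rfl ?_
      · intro h'
        exact hne (congrArg Prod.snd h')
      · exact congrArg Subtype.val hij
    · rintro ⟨w, hw⟩
      obtain ⟨p, hp1, hp2⟩ := (h.2.2.2 v w).1 hw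
      refine ⟨p.2, ?_⟩
      apply Subtype.ext
      have : (v, p.2) = p := by rw [← hp1]
      change (σ (v, p.2)).1 = w
      rw [this, hp2])

theorem toFam_apply {σ : P k → P k} (h : IsInv G σ) (v : Fin (2 * k)) (i : Fin 3) :
    ((toFam h v i : G.neighborSet v) : Fin (2 * k)) = (σ (v, i)).1 := rfl

/-- the involution of a family of bijections -/
def ofFam (f : ∀ v, Fin 3 ≃ G.neighborSet v) (p : P k) : P k :=
  ((f p.1 p.2).1, (f (f p.1 p.2).1).symm ⟨p.1, (f p.1 p.2).2.symm⟩)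

theorem ofFam_spec (f : ∀ v, Fin 3 ≃ G.neighborSet v) {v w : Fin (2 * k)} {i j : Fin 3}
    (h1 : (f v i).1 = w) (h2 : (f w j).1 = v) : ofFam f (v, i) = (w, j) := by
  subst h1
  have h3 : f (f v i).1 j = ⟨v, (f v i).2.symm⟩ := Subtype.ext h2
  unfold ofFam
  simp only
  rw [← h3, Equiv.symm_apply_apply]

theorem isInv_ofFam (f : ∀ v, Fin 3 ≃ G.neighborSet v) : IsInv G (ofFam f) := by
  refine ⟨?_, ?_, ?_, ?_⟩
  · rintro ⟨v, i⟩
    have h : (f (ofFam f (v, i)).1 (ofFam f (v, i)).2).1 = v := by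
      change (f (f v i).1 ((f (f v i).1).symm ⟨v, (f v i).2.symm⟩)).1 = v
      rw [Equiv.apply_symm_apply]
    exact ofFam_spec f (v := (ofFam f (v, i)).1) (i := (ofFam f (v, i)).2) h rfl
  · rintro ⟨v, i⟩ h
    have h1 : (f v i).1 = v := congrArg Prod.fst h
    have h2 : G.Adj v (f v i).1 := (f v i).2
    rw [h1] at h2
    exact G.loopless.irrefl _ h2
  · rintro ⟨v, i⟩ ⟨v', i'⟩ hne hv h
    have hv' : v = v' := hv
    subst hv'
    apply hne
    have h1 : (f v i).1 = (f v i').1 := h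
    have h2 : i = i' := (f v).injective (Subtype.ext h1)
    rw [h2]
  · intro u v
    constructor
    · intro h
      refine ⟨(u, (f u).symm ⟨v, h⟩), rfl, ?_⟩
      change (f u ((f u).symm ⟨v, h⟩)).1 = v
      rw [Equiv.apply_symm_apply]
    · rintro ⟨p, rfl, rfl⟩
      exact (f p.1 p.2).2

/-- involutions and families of bijections -/
noncomputable def famEquiv (G : SimpleGraph (Fin (2 * k))) :
    {σ : P k → P k // IsInv G σ} ≃ (∀ v, Fin 3 ≃ G.neighborSet v) where
  toFun σ := toFam σ.2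
  invFun f := ⟨ofFam f, isInv_ofFam f⟩
  left_inv := by
    rintro ⟨σ, h⟩
    apply Subtype.ext
    funext p
    obtain ⟨v, i⟩ := p
    change ofFam (toFam h) (v, i) = σ (v, i)
    have := ofFam_spec (toFam h) (v := v) (i := i) (w := (σ (v, i)).1) (j := (σ (v, i)).2) rfl (by
      rw [toFam_apply]
      change (σ (σ (v, i))).1 = v
      rw [h.1])
    rw [this]
  right_inv := by
    intro f
    funext v
    apply Equiv.ext
    intro i
    apply Subtype.ext
    rfl

theorem t_INV : S_INV := by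
  classical
  intro k G hG
  have h1 : {σ : P k → P k | (∀ p, σ (σ p) = p) ∧ (∀ p, σ p ≠ p) ∧
      (∀ p p' : P k, p ≠ p' → p.1 = p'.1 → (σ p).1 ≠ (σ p').1) ∧
      ∀ u v, G.Adj u v ↔ ∃ p : P k, p.1 = u ∧ (σ p).1 = v}.ncard =
      Nat.card {σ : P k → P k // IsInv G σ} := rfl
  rw [h1, Nat.card_congr (famEquiv G), Nat.card_pi]
  have h2 : ∀ v, Nat.card (Fin 3 ≃ G.neighborSet v) = 6 := by
    intro v
    have h3 : Nat.card (G.neighborSet v) = 3 := hG v
    have hfin : Finite (G.neighborSet v) := Nat.finite_of_card_ne_zero (by rw [h3]; norm_num)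
    have e : G.neighborSet v ≃ Fin 3 := Finite.equivFinOfCardEq h3
    rw [Nat.card_congr (Equiv.equivCongr (Equiv.refl (Fin 3)) e), Nat.card_eq_fintype_card,
      Fintype.card_perm]
    rfl
  rw [Finset.prod_congr rfl fun v _ => h2 v]
  simp

end Pool.Agent.H155.CL
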